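import Pool.Agent.Y481.DX.Defs2
import Pool.Agent.Y482.Cv.UniZ

/-!
# Rings of trees: volume and complex volume at critical configurations

`t_GD3 : S_GD3`, `t_GDZ : S_GDZ`, `t_GDA : S_GDA` of `Pool.Agent.Y481.DX.Defs2`.
-/

set_option autoImplicit false

namespace Pool.Agent.Y317.DX

open Finset
open Complex (exp log cos sin I)
open Pool.Agent.W711.HT hiding XX
open Pool.Agent.W719.AR (Fl)
open Pool.Agent.TH563.UV (PB AB)
open Pool.Agent.TH563.UV.Arb (ofAB)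
open Pool.Agent.TH609.UV (hpt lg lcr hs ang)
open Pool.Agent.Y482.Chi (Lc)
open Pool.Agent.Y482.Cz (Near)
open Pool.Agent.Y482.Cv (cf cg cF cG S8 E8 blk blkz)
open Pool.Agent.Y472 (SD3 SDZ RVal3 S_S0P szz dzz Zr)
open Pool.Agent.Y481.DR
open Pool.Agent.Y481.DX
open scoped Real

lemma csumD_congr {n : ℕ} {t : ℕ → FT} {f g F G f' g' F' G' : ℕ → Fl}
    {x : ℕ → Pool.Agent.Y482.Cv.Piece}
    (h : ∀ j < n, f j = f' j ∧ g j = g' j ∧ F j = F' j ∧ G j = G' j) :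
    csumD n t f g F G x = csumD n t f' g' F' G' x := by
  unfold csumD
  refine sum_congr rfl fun j hj => ?_
  rw [mem_range] at hj
  obtain ⟨h1, h2, h3, h4⟩ := h j hj
  rw [h1, h2, h3, h4]

section

variable {ρ τ κ cc : ℝ} {s dl : ℂ → ℂ → ℂ}

/-- the identity for the value at `S8`, at an edge -/
def HB (Θ : ℂ → ℂ) (n : ℕ) (z u sv : ℕ → ℂ) (χ : ℂ) : Prop :=
  ∀ j < n, S8 (u j / 2) (z j / 2) (z ((j + 1) % n) / 2) (χ / 2) = 2 * π * I * sv j +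
      I / 2 * (z j * Lg (u j) (z j) + z ((j + 1) % n) * Lg (u j) (z ((j + 1) % n)) +
        χ * Lc (u j) χ) -
      (Θ (z j / 2) - Θ (z j / 2 + χ / 2) -
        (Θ (z ((j + 1) % n) / 2) - Θ (z ((j + 1) % n) / 2 + χ / 2))) +
      π * I / 4 * E8 (u j / 2) (z j / 2) (z ((j + 1) % n) / 2) (χ / 2) - (π : ℂ) ^ 2 / 2

/-- closed ring -/
theorem goodD (hT : S_TCS) (hC : S_CSG) (hK : KD ρ τ κ cc s dl) {n : ℕ} {m : ℤ} {p : ℕ → PB}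
    {χ : ℂ} {u sv : ℕ → ℂ} {Θ : ℂ → ℂ} {X : ℂ} (hn : 1 ≤ n)
    (hp : ∀ j < n, (p j).Crt s ρ τ ∧ (p j).rz ∈ Rc ρ τ ∧ ‖(p j).rz‖ ≤ 1 / 10)
    (hX : CritD n (fun j => (p j).wt) (fun j => lg dl (p j)) m (fun j => (p j).rz) χ u)
    (hb : HB Θ n (fun j => (p j).rz) u sv χ)
    (hXv : X = ∑ j ∈ range n, (I * ((p j).wt : ℂ) * (p j).rz ^ 2 / (4 * π) + I * (p j).rz + sv j) +
      (I * m * χ ^ 2 / (2 * π) + I * χ))
    (hd : dVol n (fun j => ang dl (p j)) (cf (fun j => (p j).rz) χ u)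
      (cg n (fun j => (p j).rz) χ u) (cF (fun j => (p j).rz) χ u)
      (cG n (fun j => (p j).rz) χ u) = 2 * π * (X + ∑ j ∈ range n, (p j).vl s).re)
    (hG : IsGreatest {W : ℝ | ∃ (y : ℕ → AB) (f g F G : ℕ → Fl),
      (∀ j < n, (y j).shape = (p j).shape) ∧ DAng n m y f g F G ∧ dVol n y f g F G = W}
      (2 * π * (X + ∑ j ∈ range n, (p j).vl s).re)) :
    GoodD n m p (X + ∑ j ∈ range n, (p j).vl s) := by
  have hpi : (π : ℂ) ≠ 0 := Complex.ofReal_ne_zero.2 Real.pi_ne_zero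
  have hi : ∀ j < n, _ := fun j hj => Pool.Agent.TH609.UV.ind Pool.Agent.W583.HTP.poth hK (p j)
    (hp j hj).1 (hp j hj).2.1 (hp j hj).2.2
  have hq : ∀ j < n, hpt dl (p j) ∧ Pool.Agent.TH609.UV.lcr dl (p j) :=
    fun j hj => ⟨(hi j hj).2.1, (hi j hj).2.2.1⟩
  refine ⟨hG, ?_⟩
  intro y f g F G t x hs' hy hV ht hx
  have hu := (uniD hn hq hX hs' hy).2 (by rw [hV, hd])
  rw [csumD_congr fun j hj => (hu j hj).2]
  have ht' : ∀ j < n, (t j).angles = ofAB (ang dl (p j)) := fun j hj => by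
    rw [ht j hj, (hu j hj).1]
  obtain ⟨k, hk⟩ := hC hT ρ τ κ cc s dl hK Θ n p u sv χ hn hp hX.toV hb (-2) t x hx ht'
  refine ⟨k, ?_⟩
  rw [hk, ← hX.axis, hXv]
  simp only [sum_add_distrib]
  push_cast
  field_simp
  linear_combination (-(8 * π * χ) + 4 * (π : ℂ) ^ 2 *
    ∑ j ∈ range n, (((p j).shape.ws : ℤ) : ℂ)) * Complex.I_sq

/-- the ring with its axis -/
theorem goodA (hT : S_TCS) (hC : S_CSG) (hK : KD ρ τ κ cc s dl) {n : ℕ} {p : ℕ → PB}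
    {u sv : ℕ → ℂ} {Θ : ℂ → ℂ} {X : ℂ} (hn : 1 ≤ n)
    (hp : ∀ j < n, (p j).Crt s ρ τ ∧ (p j).rz ∈ Rc ρ τ ∧ ‖(p j).rz‖ ≤ 1 / 10)
    (hX : CritV n (fun j => (p j).wt) (fun j => lg dl (p j)) (fun j => (p j).rz) 0 u)
    (hb : HB Θ n (fun j => (p j).rz) u sv 0)
    (hXv : X = ∑ j ∈ range n, (I * ((p j).wt : ℂ) * (p j).rz ^ 2 / (4 * π) + I * (p j).rz + sv j))
    (hd : dVol n (fun j => ang dl (p j)) (cf (fun j => (p j).rz) 0 u)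
      (cg n (fun j => (p j).rz) 0 u) (cF (fun j => (p j).rz) 0 u)
      (cG n (fun j => (p j).rz) 0 u) = 2 * π * (X + ∑ j ∈ range n, (p j).vl s).re)
    (hG : IsGreatest {W : ℝ | ∃ (y : ℕ → AB) (f g F G : ℕ → Fl),
      (∀ j < n, (y j).shape = (p j).shape) ∧ DAngA n y f g F G ∧ dVol n y f g F G = W}
      (2 * π * (X + ∑ j ∈ range n, (p j).vl s).re)) :
    GoodA n p (X + ∑ j ∈ range n, (p j).vl s) := by
  have hpi : (π : ℂ) ≠ 0 := Complex.ofReal_ne_zero.2 Real.pi_ne_zero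
  have hi : ∀ j < n, _ := fun j hj => Pool.Agent.TH609.UV.ind Pool.Agent.W583.HTP.poth hK (p j)
    (hp j hj).1 (hp j hj).2.1 (hp j hj).2.2
  have hq : ∀ j < n, hpt dl (p j) ∧ Pool.Agent.TH609.UV.lcr dl (p j) :=
    fun j hj => ⟨(hi j hj).2.1, (hi j hj).2.2.1⟩
  refine ⟨hG, ?_⟩
  intro y f g F G t x hs' hy hV ht hx
  have hu := (uniA hn hq hX hs' hy).2 (by rw [hV, hd])
  rw [csumD_congr fun j hj => (hu j hj).2]
  have ht' : ∀ j < n, (t j).angles = ofAB (ang dl (p j)) := fun j hj => by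
    rw [ht j hj, (hu j hj).1]
  obtain ⟨k, hk⟩ := hC hT ρ τ κ cc s dl hK Θ n p u sv 0 hn hp hX hb 0 t x hx ht'
  refine ⟨k, ?_⟩
  rw [hk, hXv]
  simp only [sum_add_distrib]
  push_cast
  linear_combination ((π : ℂ) ^ 2 / 2 *
    ∑ j ∈ range n, (((p j).shape.ws : ℤ) : ℂ)) * Complex.I_sq

end

/-- **GD3** -/
theorem t_GD3 : S_GD3 := by
  intro hT hC ρ τ κ cc s dl hK ρ₀ c C s3 dl3 hS n m p χ hn hp hχ h
  have hz : ∀ j < n, ‖(p j).rz‖ ≤ 1 / 10 := fun j hj => (h.2.2.2.1 j hj).2.2.1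
  have hi : ∀ j < n, _ := fun j hj => Pool.Agent.TH609.UV.ind Pool.Agent.W583.HTP.poth hK (p j)
    (hp j hj).2.1 (hp j hj).2.2 (hz j hj)
  have hg : ∀ j < n, (p j).gs s = -(1 / (2 * π)) * lg dl (p j) := fun j hj => (hi j hj).1
  have hcr := crit_of3 hS h hg hχ
  have hval := val_of3 hS hn h hg hχ
  have hq : ∀ j < n, hpt dl (p j) ∧ Pool.Agent.TH609.UV.lcr dl (p j) :=
    fun j hj => ⟨(hi j hj).2.1, (hi j hj).2.2.1⟩
  have hd := dvol_of hq (fun j hj => (hi j hj).2.2.2) hval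
  obtain ⟨Θ, hΘ⟩ := blk
  refine goodD hT hC hK (Θ := Θ)
    (sv := fun j => s3 (p j).rz (p ((j + 1) % n)).rz χ) hn
    (fun j hj => ⟨(hp j hj).2.1, (hp j hj).2.2, hz j hj⟩) hcr ?_ rfl hd
    (geod3 ρ τ κ cc s dl hK ρ₀ c C s3 dl3 hS n m p χ hn hp hχ h)
  intro j hj
  have h1 : (j + 1) % n < n := Nat.mod_lt _ (by omega)
  exact hΘ ρ₀ c C s3 dl3 hS (p j).rz (p ((j + 1) % n)).rz χ (h.2.2.2.1 j hj).1
    (h.2.2.2.1 _ h1).1 h.1 (hz j hj) (hz _ h1) hχ.le _ rfl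

/-- **GDZ** -/
theorem t_GDZ : S_GDZ := by
  intro hT hC hS0 ρ τ κ cc s dl hK χ₀ hZ
  obtain ⟨ε₁, hε₁, hN⟩ := Pool.Agent.Y482.Cz.near hZ
  obtain ⟨Λ, hΛ⟩ := Pool.Agent.Y482.Cz.ex_prim
  refine ⟨min ε₁ (1 / 10), lt_min hε₁ (by norm_num), ?_⟩
  intro ρ₀ c C hS n m p χ hn hp hχ h
  have hz : ∀ j < n, ‖(p j).rz‖ ≤ ε₁ := fun j hj => (hp j hj).2.2.2.trans (min_le_left _ _)
  have hz' : ∀ j < n, ‖(p j).rz‖ ≤ 1 / 10 :=
    fun j hj => (hp j hj).2.2.2.trans (min_le_right _ _)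
  have hχ' : ‖χ - χ₀‖ ≤ ε₁ := hχ.trans (min_le_left _ _)
  have hi : ∀ j < n, _ := fun j hj => Pool.Agent.TH609.UV.ind Pool.Agent.W583.HTP.poth hK (p j)
    (hp j hj).2.1 (hp j hj).2.2.1 (hz' j hj)
  have hg : ∀ j < n, (p j).gs s = -(1 / (2 * π)) * lg dl (p j) := fun j hj => (hi j hj).1
  have hcr := Pool.Agent.Y481.DR.crit_of hS0 hS hΛ hN h hg hz hχ'
  have hval := Pool.Agent.Y481.DR.val_of hS0 hS hΛ hN hn h hg hz hχ'
  have hq : ∀ j < n, hpt dl (p j) ∧ Pool.Agent.TH609.UV.lcr dl (p j) :=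
    fun j hj => ⟨(hi j hj).2.1, (hi j hj).2.2.1⟩
  have hd := dvol_of hq (fun j hj => (hi j hj).2.2.2) hval
  have hG : IsGreatest {W : ℝ | ∃ (y : ℕ → AB) (f g F G : ℕ → Fl),
      (∀ j < n, (y j).shape = (p j).shape) ∧ DAng n m y f g F G ∧ dVol n y f g F G = W}
      (2 * π * (RVal3 szz n (fun j => (p j).wt) m (fun j => (p j).rz) χ +
        ∑ j ∈ range n, (p j).vl s).re) := by
    rw [← hd]
    constructor
    · exact ⟨_, _, _, _, _, fun j hj => Pool.Agent.TH609.UV.ang_shape dl (p j),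
        crit_ang hn hq hcr, rfl⟩
    · rintro W ⟨y, f, g, F, G, hs', hy, rfl⟩
      exact crit_max Pool.Agent.W120.VC.tet hn hq hcr hs' hy
  obtain ⟨Θ, hΘ⟩ := blkz hS0
  refine goodD hT hC hK (Θ := Θ)
    (sv := fun j => szz (p j).rz (p ((j + 1) % n)).rz χ) hn
    (fun j hj => ⟨(hp j hj).2.1, (hp j hj).2.2.1, hz' j hj⟩) hcr ?_ rfl hd hG
  intro j hj
  have h1 : (j + 1) % n < n := Nat.mod_lt _ (by omega)
  exact hΘ χ₀ ε₁ hN ρ₀ c C szz dzz hS (p j).rz (p ((j + 1) % n)).rz χ (h.2.1 j hj).1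
    (h.2.1 _ h1).1 h.1 (hz j hj) (hz _ h1) hχ' _ rfl

/-- **GDA** -/
theorem t_GDA : S_GDA := by
  intro hT hC ρ τ κ cc s dl hK ρ₀ c C s3 dl3 hS n p hn hp h
  have m0 : (0 : ℂ) ∈ Rc ρ₀ ρ₀ := by
    constructor
    · simpa using hS.hρ.1
    · simpa using hS.hρ.1
  have hz : ∀ j < n, ‖(p j).rz‖ ≤ 1 / 10 := fun j hj => (h j hj).2.2.1
  obtain ⟨u, hu⟩ : ∃ u : ℕ → ℂ, u = fun j => 2 * π * dl3 (p j).rz (p ((j + 1) % n)).rz 0 :=
    ⟨_, rfl⟩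
  obtain ⟨hq, hv, hd⟩ := axis_facts hK hS hn hp h hu
  obtain ⟨Θ, hΘ⟩ := blk
  refine goodA hT hC hK (Θ := Θ) (u := u)
    (sv := fun j => s3 (p j).rz (p ((j + 1) % n)).rz 0) hn
    (fun j hj => ⟨(hp j hj).2.1, (hp j hj).2.2, hz j hj⟩) hv ?_ rfl hd
    (geoda ρ τ κ cc s dl hK ρ₀ c C s3 dl3 hS n p hn hp h)
  intro j hj
  have h1 : (j + 1) % n < n := Nat.mod_lt _ (by omega)
  exact hΘ ρ₀ c C s3 dl3 hS (p j).rz (p ((j + 1) % n)).rz 0 (h j hj).1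
    (h _ h1).1 m0 (hz j hj) (hz _ h1) (by simp) (u j) (by rw [hu])

end Pool.Agent.Y317.DX
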